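import Pool.Agent.Helper32.PC.TreeAux

/-! # Project PC, packet TFP: finite presentability from the vertex stabilizers -/

namespace Pool.Agent.Helper32.PC

universe u v w

open Pool.Agent.Helper11.PC

lemma exists_J {V : Type w} {H : Type u} [Group H] [MulAction H V]
    (hfpc : ∀ {k : ℕ} (K : Fin k → Subgroup H), (∀ i, Group.IsFinitelyPresented (K i)) →
      ∃ (Q : Type) (_ : Group Q) (q : Q →* H) (j : ∀ i, K i →* Q), Group.IsFinitelyPresented Q ∧
      Function.Surjective q ∧ ∀ i (x : K i), q (j i x) = x)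
    (hv : ∀ v : V, Group.IsFinitelyPresented (MulAction.stabilizer H v)) (R : Finset V) :
    ∃ (Q : Type) (_ : Group Q) (q : Q →* H) (J : V → H → Q), Group.IsFinitelyPresented Q ∧
      Function.Surjective q ∧
      (∀ r ∈ R, ∀ g ∈ MulAction.stabilizer H r, q (J r g) = g) ∧
      (∀ r ∈ R, ∀ g ∈ MulAction.stabilizer H r, ∀ g' ∈ MulAction.stabilizer H r,
        J r (g * g') = J r g * J r g') := by
  classical
  obtain ⟨Q, hQ, q, j, hfp, hs, hj⟩ := hfpc
    (fun i : Fin R.card => MulAction.stabilizer H (R.equivFin.symm i).val) (fun i => hv _)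
  let J : V → H → Q := fun r g =>
    if h : ∃ hr : r ∈ R, g ∈ MulAction.stabilizer H (R.equivFin.symm (R.equivFin ⟨r, hr⟩)).val
    then j (R.equivFin ⟨r, h.choose⟩) ⟨g, h.choose_spec⟩ else 1
  have hJ : ∀ r (hr : r ∈ R), ∀ g (hg : g ∈ MulAction.stabilizer H r),
      ∃ hg' : g ∈ MulAction.stabilizer H (R.equivFin.symm (R.equivFin ⟨r, hr⟩)).val,
      J r g = j (R.equivFin ⟨r, hr⟩) ⟨g, hg'⟩ := by
    intro r hr g hg
    have h1 : (R.equivFin.symm (R.equivFin ⟨r, hr⟩)).val = r := by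
      rw [Equiv.symm_apply_apply]
    have hg' : g ∈ MulAction.stabilizer H (R.equivFin.symm (R.equivFin ⟨r, hr⟩)).val := by
      rw [h1]; exact hg
    have h : ∃ hr : r ∈ R,
      g ∈ MulAction.stabilizer H (R.equivFin.symm (R.equivFin ⟨r, hr⟩)).val := ⟨hr, hg'⟩
    refine ⟨hg', ?_⟩
    simp only [J]
    rw [dif_pos h]
  refine ⟨Q, hQ, q, J, hfp, hs, ?_, ?_⟩
  · intro r hr g hg
    obtain ⟨hg', h⟩ := hJ r hr g hg
    rw [h, hj]
  · intro r hr g hg g' hg'
    obtain ⟨h1, e1⟩ := hJ r hr g hg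
    obtain ⟨h2, e2⟩ := hJ r hr g' hg'
    obtain ⟨h3, e3⟩ := hJ r hr (g * g') (mul_mem hg hg')
    rw [e1, e2, e3, ← map_mul]
    rfl

theorem tfp {V : Type w} {T : SimpleGraph V} (hT : T.IsTree) (hHull : TreeHull T)
    {H : Type u} [Group H] [MulAction H V]
    (hact : ∀ (g : H) (v w : V), T.Adj v w → T.Adj (g • v) (g • w))
    (hch : ∀ (Q : Type) [Group Q], ChainLemma T H Q)
    (hfpc : ∀ {k : ℕ} (K : Fin k → Subgroup H), (∀ i, Group.IsFinitelyPresented (K i)) →
      ∃ (Q : Type) (_ : Group Q) (q : Q →* H) (j : ∀ i, K i →* Q), Group.IsFinitelyPresented Q ∧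
      Function.Surjective q ∧ ∀ i (x : K i), q (j i x) = x)
    (hfg : Group.FG H)
    (hedge : ∀ v w : V, T.Adj v w →
      (MulAction.stabilizer H v ⊓ MulAction.stabilizer H w).FG)
    (hv : ∀ v : V, Group.IsFinitelyPresented (MulAction.stabilizer H v)) :
    Group.IsFinitelyPresented H := by
  classical
  have hconn : T.Connected := hT.connected
  obtain ⟨v⟩ := hconn.nonempty
  obtain ⟨E, hEtop, hEfin⟩ := Group.fg_iff.mp hfg
  -- the finite convex set
  obtain ⟨S, hSfin, hSconv, hSsub⟩ := hHull (insert v ((fun e : H => e • v) '' E))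
    ((hEfin.image _).insert v)
  have hvS : v ∈ S := hSsub (Set.mem_insert _ _)
  have heS : ∀ e ∈ E, e • v ∈ S := fun e he => hSsub (Set.mem_insert_of_mem _ ⟨e, he, rfl⟩)
  obtain ⟨A, hAfin, hA⟩ := exists_gens hedge
  obtain ⟨h0, hh0⟩ := exists_move (V := V) (H := H)
  obtain ⟨Q0, instQ0, q0, J, hfp, hsurj, hJq, hJm⟩ := exists_J hfpc hv
    (hSfin.toFinset.image (rep H))
  set R : Finset V := hSfin.toFinset.image (rep H) with hRdef
  have hR : ∀ x ∈ S, rep H x ∈ R := fun x hx =>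
    Finset.mem_image_of_mem _ (hSfin.mem_toFinset.mpr hx)
  obtain ⟨n, φ, hφ, -⟩ := hfp.out
  choose tt htt using fun x : V => hsurj (tau H x)
  let σ0 : V → H → Q0 := fun x s => tt (s • x) * J (rep H x) (loc s x) * (tt x)⁻¹
  have hσq : ∀ x, rep H x ∈ R → ∀ s, q0 (σ0 x s) = s := by
    intro x hx s
    simp only [σ0]
    rw [map_mul, map_mul, map_inv, htt, htt, hJq _ hx _ (loc_mem s x)]
    unfold loc
    group
  have hσm : ∀ x, rep H x ∈ R → ∀ s t, σ0 x (s * t) = σ0 (t • x) s * σ0 x t := by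
    intro x hx s t
    simp only [σ0]
    have h1 := loc_mem s (t • x)
    rw [rep_smul] at h1 ⊢
    rw [loc_mul, hJm _ hx _ h1 _ (loc_mem t x), mul_smul]
    group
  let Sig : Set H := {s | ∃ x ∈ S, s • x ∈ S}
  let σ1 : H → Q0 := fun s => if h : ∃ x ∈ S, s • x ∈ S then σ0 h.choose s else 1
  have hσ1 : ∀ s ∈ Sig, ∃ x ∈ S, s • x ∈ S ∧ σ1 s = σ0 x s := by
    intro s hs
    have h : ∃ x ∈ S, s • x ∈ S := hs
    refine ⟨h.choose, h.choose_spec.1, h.choose_spec.2, ?_⟩
    simp only [σ1]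
    rw [dif_pos h]
  have hσ1q : ∀ s ∈ Sig, q0 (σ1 s) = s := by
    intro s hs
    obtain ⟨x, hx, _, h⟩ := hσ1 s hs
    rw [h, hσq x (hR x hx)]
  have hSiginv : ∀ s ∈ Sig, s⁻¹ ∈ Sig := by
    rintro s ⟨x, hx, hsx⟩
    exact ⟨s • x, hsx, by rw [inv_smul_smul]; exact hx⟩
  have hlist : ∀ g : H, ∃ L : List H, (∀ s ∈ L, s ∈ Sig) ∧ L.prod = g := by
    intro g
    have hg : g ∈ Subgroup.closure E := by rw [hEtop]; exact Subgroup.mem_top g
    induction hg using Subgroup.closure_induction with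
    | mem c hc =>
      refine ⟨[c], ?_, by simp⟩
      intro s hs
      rw [List.mem_singleton] at hs
      subst hs
      exact ⟨v, hvS, heS _ hc⟩
    | one => exact ⟨[], by simp, by simp⟩
    | mul a b ha hb iha ihb =>
      obtain ⟨L, hL, hLp⟩ := iha
      obtain ⟨L', hL', hLp'⟩ := ihb
      refine ⟨L ++ L', ?_, by rw [List.prod_append, hLp, hLp']⟩
      intro s hs
      rcases List.mem_append.mp hs with h | h
      · exact hL s h
      · exact hL' s h
    | inv a ha iha =>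
      obtain ⟨L, hL, hLp⟩ := iha
      refine ⟨(L.map (fun x => x⁻¹)).reverse, ?_, by rw [← List.prod_inv_reverse, hLp]⟩
      intro s hs
      rw [List.mem_reverse, List.mem_map] at hs
      obtain ⟨t, ht, rfl⟩ := hs
      exact hSiginv t (hL t ht)
  choose L hLSig hLprod using fun i : Fin n => hlist (q0 (φ (FreeGroup.of i)))
  -- the relations
  let R1 : Set Q0 := ⋃ x ∈ S, ⋃ x' ∈ S, {r | T.Adj x x' ∧
    ∃ c ∈ A x x', r = σ0 x c * (σ0 x' c)⁻¹}
  let R2 : Set Q0 := ⋃ x ∈ S, ⋃ x' ∈ S, ⋃ y ∈ S, ⋃ y' ∈ S,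
    {r | r = σ0 x (h0 x x' y y') * (σ0 x' (h0 x x' y y'))⁻¹}
  let R3 : Set Q0 := Set.range fun i : Fin n => (φ (FreeGroup.of i))⁻¹ * ((L i).map σ1).prod
  have hRelfin : (R1 ∪ R2 ∪ R3).Finite := by
    refine ((Set.Finite.union ?_ ?_).union ?_)
    · refine hSfin.biUnion fun x _ => hSfin.biUnion fun x' _ => ?_
      refine ((hAfin x x').image (fun c => σ0 x c * (σ0 x' c)⁻¹)).subset ?_
      rintro g ⟨-, c, hc, rfl⟩
      exact ⟨c, hc, rfl⟩
    · refine hSfin.biUnion fun x _ => hSfin.biUnion fun x' _ => hSfin.biUnion fun y _ =>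
        hSfin.biUnion fun y' _ => ?_
      exact Set.finite_singleton _
    · exact Set.finite_range _
  have hlistq : ∀ M : List H, (∀ s ∈ M, s ∈ Sig) → q0 (M.map σ1).prod = M.prod := by
    intro M
    induction M with
    | nil => intro _; simp
    | cons a M ih =>
      intro h
      rw [List.map_cons, List.prod_cons, List.prod_cons, map_mul,
        ih (fun s hs => h s (List.mem_cons_of_mem _ hs)), hσ1q a (h a (List.mem_cons_self))]
  have hRelker : R1 ∪ R2 ∪ R3 ⊆ (q0.ker : Set Q0) := by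
    rintro g ((hg | hg) | hg)
    · simp only [R1, Set.mem_iUnion] at hg
      obtain ⟨x, hx, x', hx', _, c, _, rfl⟩ := hg
      rw [SetLike.mem_coe, MonoidHom.mem_ker, map_mul, map_inv, hσq x (hR x hx),
        hσq x' (hR x' hx'), mul_inv_cancel]
    · simp only [R2, Set.mem_iUnion] at hg
      obtain ⟨x, hx, x', hx', y, _, y', _, rfl⟩ := hg
      rw [SetLike.mem_coe, MonoidHom.mem_ker, map_mul, map_inv, hσq x (hR x hx),
        hσq x' (hR x' hx'), mul_inv_cancel]
    · obtain ⟨i, rfl⟩ := hg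
      rw [SetLike.mem_coe, MonoidHom.mem_ker, map_mul, map_inv, hlistq _ (hLSig i), hLprod i,
        inv_mul_cancel]
  set N : Subgroup Q0 := Subgroup.normalClosure (R1 ∪ R2 ∪ R3) with hN
  have hNker : N ≤ q0.ker := Subgroup.normalClosure_le_normal hRelker
  have hQfp : Group.IsFinitelyPresented (Q0 ⧸ N) :=
    Group.IsFinitelyPresented.quotient N ⟨_, hRelfin, hN.symm⟩
  let π : Q0 →* Q0 ⧸ N := QuotientGroup.mk' N
  let q : Q0 ⧸ N →* H := QuotientGroup.lift N q0 hNker
  have hqπ : ∀ z, q (π z) = q0 z := fun z => rfl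
  have hπ : ∀ r ∈ R1 ∪ R2 ∪ R3, π r = 1 := by
    intro r hr
    exact (QuotientGroup.eq_one_iff r).mpr (Subgroup.subset_normalClosure hr)
  have hπeq : ∀ a b : Q0, a * b⁻¹ ∈ R1 ∪ R2 ∪ R3 → π a = π b := by
    intro a b h
    have := hπ _ h
    rwa [map_mul, map_inv, mul_inv_eq_one] at this
  -- (1)
  have h1 : ∀ x ∈ S, ∀ x' ∈ S, T.Adj x x' → ∀ c ∈ MulAction.stabilizer H x ⊓
      MulAction.stabilizer H x', π (σ0 x c) = π (σ0 x' c) := by
    intro x hx x' hx' hadj c hc
    rw [← hA x x' hadj] at hc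
    have hle : ∀ c ∈ Subgroup.closure (A x x'), c • x = x ∧ c • x' = x' := by
      intro c hc
      rw [hA x x' hadj] at hc
      exact ⟨MulAction.mem_stabilizer_iff.mp hc.1, MulAction.mem_stabilizer_iff.mp hc.2⟩
    have hone : ∀ x ∈ S, σ0 x 1 = 1 := by
      intro x hx
      have := hσm x (hR x hx) 1 1
      rw [one_smul, mul_one] at this
      exact (mul_eq_left.mp this.symm)
    induction hc using Subgroup.closure_induction with
    | mem c hc =>
      apply hπeq
      left; left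
      simp only [R1, Set.mem_iUnion]
      exact ⟨x, hx, x', hx', hadj, c, hc, rfl⟩
    | one => rw [hone x hx, hone x' hx']
    | mul a b ha hb iha ihb =>
      rw [hσm x (hR x hx), hσm x' (hR x' hx'), (hle b hb).1, (hle b hb).2,
        map_mul π (σ0 x a) (σ0 x b), map_mul π (σ0 x' a) (σ0 x' b), iha, ihb]
    | inv a ha iha =>
      have e1 := hσm x (hR x hx) a⁻¹ a
      have e2 := hσm x' (hR x' hx') a⁻¹ a
      rw [inv_mul_cancel, hone x hx, (hle a ha).1] at e1
      rw [inv_mul_cancel, hone x' hx', (hle a ha).2] at e2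
      have e3 := inv_eq_of_mul_eq_one_left e1.symm
      have e4 := inv_eq_of_mul_eq_one_left e2.symm
      rw [← e3, ← e4, map_inv, map_inv, iha]
  -- (2)
  have h2 : ∀ x ∈ S, ∀ x' ∈ S, T.Adj x x' → ∀ s : H, s • x ∈ S → s • x' ∈ S →
      π (σ0 x s) = π (σ0 x' s) := by
    intro x hx x' hx' hadj s hsx hsx'
    obtain ⟨e1, e2⟩ := hh0 x x' (s • x) (s • x') ⟨s, rfl, rfl⟩
    have hk : π (σ0 x (h0 x x' (s • x) (s • x'))) = π (σ0 x' (h0 x x' (s • x) (s • x'))) := by
      apply hπeq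
      left; right
      simp only [R2, Set.mem_iUnion]
      exact ⟨x, hx, x', hx', s • x, hsx, s • x', hsx', rfl⟩
    set k := h0 x x' (s • x) (s • x') with hkdef
    have hc1 : (k⁻¹ * s) • x = x := by rw [mul_smul, ← e1, inv_smul_smul]
    have hc2 : (k⁻¹ * s) • x' = x' := by rw [mul_smul, ← e2, inv_smul_smul]
    have hs : s = k * (k⁻¹ * s) := by group
    rw [hs, hσm x (hR x hx), hσm x' (hR x' hx'), hc1, hc2,
      map_mul π (σ0 x k) (σ0 x (k⁻¹ * s)), map_mul π (σ0 x' k) (σ0 x' (k⁻¹ * s)), hk,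
      h1 x hx x' hx' hadj _ ⟨hc1, hc2⟩]
  -- (3)
  have h3 : ∀ d : ℕ, ∀ x ∈ S, ∀ x' ∈ S, T.dist x x' ≤ d → ∀ s : H, s • x ∈ S → s • x' ∈ S →
      π (σ0 x s) = π (σ0 x' s) := by
    intro d
    induction d with
    | zero =>
      intro x hx x' hx' hd s hsx hsx'
      have : x = x' := (hconn.dist_eq_zero_iff).mp (by omega)
      rw [this]
    | succ d ih =>
      intro x hx x' hx' hd s hsx hsx'
      by_cases hxx : x = x'
      · rw [hxx]
      · obtain ⟨y, hy1, hy2, hy3⟩ := exists_last hconn hxx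
        have hyS : y ∈ S := hSconv x hx x' hx' y hy2
        have hsyS : s • y ∈ S := by
          refine hSconv (s • x) hsx (s • x') hsx' (s • y) ?_
          rw [dist_smul hconn hact, dist_smul hconn hact, dist_smul hconn hact]
          exact hy2
        rw [ih x hx y hyS (by omega) s hsx hsyS]
        exact h2 y hyS x' hx' hy1 s hsyS hsx'
  let σ : H → Q0 ⧸ N := fun s => π (σ1 s)
  have hσ : ∀ s, ∀ x ∈ S, s • x ∈ S → σ s = π (σ0 x s) := by
    intro s x hx hsx
    obtain ⟨x', hx', hsx', h⟩ := hσ1 s ⟨x, hx, hsx⟩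
    simp only [σ]
    rw [h]
    exact h3 _ x' hx' x hx le_rfl s hsx' hsx
  have hσmul : ∀ s ∈ Sig, ∀ t ∈ Sig, (∃ y ∈ S, t • y ∈ S ∧ (s * t) • y ∈ S) →
      σ (s * t) = σ s * σ t := by
    rintro s _ t _ ⟨y, hy, hty, hsty⟩
    rw [hσ (s * t) y hy hsty, hσm y (hR y hy), map_mul π (σ0 (t • y) s) (σ0 y t),
      hσ t y hy hty]
    rw [mul_smul] at hsty
    rw [hσ s (t • y) hty hsty]
  have hSig1 : (1 : H) ∈ Sig := ⟨v, hvS, by rw [one_smul]; exact hvS⟩
  have hchain := hch (Q0 ⧸ N) S hSconv ⟨v, hvS⟩ Sig hSig1 (fun s hs => hs)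
    (by
      rintro s _ t _ ⟨y, hy, hty, hsty⟩
      exact ⟨y, hy, hsty⟩) σ hσmul
  have hσ1one : σ 1 = 1 := by
    have := hσmul 1 hSig1 1 hSig1 ⟨v, hvS, by rw [one_smul]; exact hvS, by
      rw [mul_one, one_smul]; exact hvS⟩
    rw [mul_one] at this
    exact mul_eq_left.mp this.symm
  have hσinv : ∀ s ∈ Sig, σ s⁻¹ = (σ s)⁻¹ := by
    intro s hs
    obtain ⟨x, hx, hsx⟩ := hs
    have := hσmul s⁻¹ (hSiginv s ⟨x, hx, hsx⟩) s ⟨x, hx, hsx⟩ ⟨x, hx, hsx, by
      rw [inv_mul_cancel, one_smul]; exact hx⟩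
    rw [inv_mul_cancel, hσ1one] at this
    exact (inv_eq_of_mul_eq_one_left this.symm).symm
  -- every element is a product
  have hprod : ∀ z : Q0, ∃ M : List H, (∀ s ∈ M, s ∈ Sig) ∧ (M.map σ).prod = π z := by
    have hgen : ∀ w : FreeGroup (Fin n), ∃ M : List H, (∀ s ∈ M, s ∈ Sig) ∧
        (M.map σ).prod = π (φ w) := by
      intro w
      induction w using FreeGroup.induction_on with
      | C1 => exact ⟨[], by simp, by simp⟩
      | of i =>
        refine ⟨L i, hLSig i, ?_⟩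
        have h := hπ _ (Or.inr ⟨i, rfl⟩ : (φ (FreeGroup.of i))⁻¹ * ((L i).map σ1).prod ∈
          R1 ∪ R2 ∪ R3)
        rw [map_mul, map_inv, inv_mul_eq_one, map_list_prod, List.map_map] at h
        exact h.symm
      | inv_of i ih =>
        obtain ⟨M, hM, hMp⟩ := ih
        refine ⟨(M.map (fun x => x⁻¹)).reverse, ?_, ?_⟩
        · intro s hs
          rw [List.mem_reverse, List.mem_map] at hs
          obtain ⟨t, ht, rfl⟩ := hs
          exact hSiginv t (hM t ht)
        · rw [map_inv, map_inv, ← hMp, List.prod_inv_reverse, List.map_reverse, List.map_map,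
            List.map_map]
          congr 2
          apply List.map_congr_left
          intro s hs
          exact hσinv s (hM s hs)
      | mul x y hx hy =>
        obtain ⟨M, hM, hMp⟩ := hx
        obtain ⟨M', hM', hMp'⟩ := hy
        refine ⟨M ++ M', ?_, by rw [List.map_append, List.prod_append, hMp, hMp', map_mul,
          map_mul]⟩
        intro s hs
        rcases List.mem_append.mp hs with h | h
        · exact hM s h
        · exact hM' s h
    intro z
    obtain ⟨w, rfl⟩ := hφ z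
    exact hgen w
  have hqlist : ∀ M : List H, (∀ s ∈ M, s ∈ Sig) → q (M.map σ).prod = M.prod := by
    intro M hM
    have e : (M.map σ).prod = π (M.map σ1).prod := by
      rw [map_list_prod, List.map_map]
      rfl
    rw [e, hqπ]
    exact hlistq M hM
  have hqinj : Function.Injective q := by
    rw [injective_iff_map_eq_one]
    intro w hw
    obtain ⟨z, rfl⟩ := QuotientGroup.mk'_surjective N w
    obtain ⟨M, hM, hMp⟩ := hprod z
    have hMp' : (M.map σ).prod = (QuotientGroup.mk' N) z := hMp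
    rw [← hMp'] at hw ⊢
    rw [hqlist M hM] at hw
    obtain ⟨-, h⟩ := hchain M hM ⟨v, hvS, by rw [hw, one_smul]; exact hvS⟩
    rw [h, hw, hσ1one]
  have hqsurj : Function.Surjective q := by
    intro g
    obtain ⟨z, hz⟩ := hsurj g
    exact ⟨π z, hz⟩
  exact Group.IsFinitelyPresented.equiv (MulEquiv.ofBijective q ⟨hqinj, hqsurj⟩)

end Pool.Agent.Helper32.PC
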