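import Pool.Agent.Helper32.PC.TreeAux

/-! # Project PC, packet TVF: vertex stabilizers are finitely generated -/

namespace Pool.Agent.Helper32.PC

universe u v w

open Pool.Agent.Helper11.PC

theorem tvf {V : Type w} {T : SimpleGraph V} (hT : T.IsTree) (hHull : TreeHull T)
    {H : Type u} [Group H] [MulAction H V]
    (hact : ∀ (g : H) (v w : V), T.Adj v w → T.Adj (g • v) (g • w))
    (hch : ChainLemma T H PUnit.{1}) (hfg : Group.FG H)
    (hedge : ∀ v w : V, T.Adj v w →
      (MulAction.stabilizer H v ⊓ MulAction.stabilizer H w).FG) :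
    ∀ v : V, (MulAction.stabilizer H v).FG := by
  classical
  intro v
  have hconn : T.Connected := hT.isConnected
  obtain ⟨E, hEtop, hEfin⟩ := Group.fg_iff.mp hfg
  -- the finite convex set
  obtain ⟨S, hSfin, hSconv, hSsub⟩ := hHull (insert v ((fun e : H => e • v) '' E))
    ((hEfin.image _).insert v)
  have hvS : v ∈ S := hSsub (Set.mem_insert _ _)
  have heS : ∀ e ∈ E, e • v ∈ S := fun e he => hSsub (Set.mem_insert_of_mem _ ⟨e, he, rfl⟩)
  obtain ⟨A, hAfin, hA⟩ := exists_gens hedge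
  obtain ⟨h0, hh0⟩ := exists_move (V := V) (H := H)
  -- the generating sets
  let G1 : V → Set H := fun r => ⋃ x ∈ S, ⋃ x' ∈ S, {g | rep H x' = r ∧ T.Adj x x' ∧
    ∃ c ∈ A x x', g = loc c x'}
  let G2 : V → Set H := fun r => ⋃ x ∈ S, ⋃ x' ∈ S, ⋃ y ∈ S, ⋃ y' ∈ S, {g | rep H x' = r ∧
    g = loc (h0 x x' y y') x'}
  let G3 : V → Set H := fun r => {g | rep H v = r ∧ ∃ e ∈ E, g = loc e v}
  let P : V → Subgroup H := fun r => Subgroup.closure (G1 r ∪ G2 r ∪ G3 r)
  have hfin : ∀ r, (G1 r ∪ G2 r ∪ G3 r).Finite := by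
    intro r
    refine ((Set.Finite.union ?_ ?_).union ?_)
    · refine hSfin.biUnion fun x _ => hSfin.biUnion fun x' _ => ?_
      refine ((hAfin x x').image (fun c => loc c x')).subset ?_
      rintro g ⟨-, -, c, hc, rfl⟩
      exact ⟨c, hc, rfl⟩
    · refine hSfin.biUnion fun x _ => hSfin.biUnion fun x' _ => hSfin.biUnion fun y _ =>
        hSfin.biUnion fun y' _ => ?_
      refine (Set.finite_singleton (loc (h0 x x' y y') x')).subset ?_
      rintro g ⟨-, rfl⟩
      rfl
    · refine (hEfin.image (fun e => loc e v)).subset ?_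
      rintro g ⟨-, e, he, rfl⟩
      exact ⟨e, he, rfl⟩
  have hPfg : ∀ r, (P r).FG := fun r => (Subgroup.fg_iff _).mpr ⟨_, rfl, hfin r⟩
  have hPle : ∀ r, P r ≤ MulAction.stabilizer H r := by
    intro r
    refine (Subgroup.closure_le _).mpr ?_
    rintro g ((hg | hg) | hg)
    · simp only [G1, Set.mem_iUnion] at hg
      obtain ⟨x, _, x', _, hr, _, c, _, rfl⟩ := hg
      rw [← hr]
      exact loc_mem c x'
    · simp only [G2, Set.mem_iUnion] at hg
      obtain ⟨x, _, x', _, y, _, y', _, hr, rfl⟩ := hg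
      rw [← hr]
      exact loc_mem _ x'
    · obtain ⟨hr, e, _, rfl⟩ := hg
      rw [← hr]
      exact loc_mem _ v
  -- (*)
  have hstar1 : ∀ x ∈ S, ∀ x' ∈ S, T.Adj x x' → ∀ c ∈ MulAction.stabilizer H x ⊓
      MulAction.stabilizer H x', loc c x' ∈ P (rep H x') := by
    intro x hx x' hx' hadj c hc
    rw [← hA x x' hadj] at hc
    have hle : ∀ c ∈ Subgroup.closure (A x x'), c • x' = x' := by
      intro c hc
      rw [hA x x' hadj] at hc
      exact MulAction.mem_stabilizer_iff.mp hc.2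
    induction hc using Subgroup.closure_induction with
    | mem c hc =>
      apply Subgroup.subset_closure
      left; left
      simp only [G1, Set.mem_iUnion]
      exact ⟨x, hx, x', hx', rfl, hadj, c, hc, rfl⟩
    | one => rw [loc_one]; exact one_mem _
    | mul a b ha hb iha ihb =>
      rw [loc_mul, hle b hb]
      exact mul_mem iha ihb
    | inv a ha iha =>
      have := loc_inv a x'
      rw [hle a ha] at this
      rw [this]
      exact inv_mem iha
  have hstar : ∀ x ∈ S, ∀ x' ∈ S, T.Adj x x' → ∀ s : H, s • x ∈ S → s • x' ∈ S →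
      loc s x' ∈ P (rep H x') := by
    intro x hx x' hx' hadj s hsx hsx'
    obtain ⟨e1, e2⟩ := hh0 x x' (s • x) (s • x') ⟨s, rfl, rfl⟩
    set k := h0 x x' (s • x) (s • x') with hk
    have hc1 : (k⁻¹ * s) • x = x := by rw [mul_smul, ← e1, inv_smul_smul]
    have hc2 : (k⁻¹ * s) • x' = x' := by rw [mul_smul, ← e2, inv_smul_smul]
    have hs : s = k * (k⁻¹ * s) := by group
    rw [hs, loc_mul, hc2]
    refine mul_mem ?_ (hstar1 x hx x' hx' hadj _ ⟨hc1, hc2⟩)
    apply Subgroup.subset_closure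
    left; right
    simp only [G2, Set.mem_iUnion]
    exact ⟨x, hx, x', hx', s • x, hsx, s • x', hsx', rfl, rfl⟩
  -- (**)
  have hstar2 : ∀ x ∈ S, ∀ x' ∈ S, ∀ s : H, s • x ∈ S → s • x' ∈ S → loc s x ∈ P (rep H x) →
      loc s x' ∈ P (rep H x') := by
    intro x hx x' hx' s hsx hsx' hl
    by_cases hxx : x = x'
    · rw [← hxx]; exact hl
    · obtain ⟨y, hy1, hy2, -⟩ := exists_last hconn hxx
      have hyS : y ∈ S := hSconv x hx x' hx' y hy2
      have hsyS : s • y ∈ S := by
        refine hSconv (s • x) hsx (s • x') hsx' (s • y) ?_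
        rw [dist_smul hconn hact, dist_smul hconn hact, dist_smul hconn hact]
        exact hy2
      exact hstar y hyS x' hx' hy1 s hsyS hsx'
  -- Sig
  set Sig : Set H := {s | ∃ x ∈ S, s • x ∈ S ∧ loc s x ∈ P (rep H x)} with hSig
  have hSig1 : (1 : H) ∈ Sig := by
    refine ⟨v, hvS, by rw [one_smul]; exact hvS, ?_⟩
    rw [loc_one]; exact one_mem _
  have hchain := hch S hSconv ⟨v, hvS⟩ Sig hSig1
    (fun s hs => by obtain ⟨x, hx, hsx, _⟩ := hs; exact ⟨x, hx, hsx⟩)
    (by
      rintro s ⟨x, hx, hsx, hsl⟩ t ⟨x', hx', htx', htl⟩ ⟨y, hy, hty, hsty⟩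
      refine ⟨y, hy, hsty, ?_⟩
      rw [loc_mul]
      rw [mul_smul] at hsty
      have h1 := hstar2 x' hx' y hy t htx' hty htl
      have h2 := hstar2 x hx (t • y) hty s hsx hsty hsl
      rw [rep_smul] at h2
      exact mul_mem h2 h1)
    (fun _ => PUnit.unit) (fun _ _ _ _ _ => rfl)
  have hEsig : ∀ e ∈ E, e ∈ Sig := by
    intro e he
    refine ⟨v, hvS, heS e he, ?_⟩
    apply Subgroup.subset_closure
    right
    exact ⟨rfl, e, he, rfl⟩
  have hinv : ∀ s ∈ Sig, s⁻¹ ∈ Sig := by
    rintro s ⟨x, hx, hsx, hsl⟩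
    refine ⟨s • x, hsx, by rw [inv_smul_smul]; exact hx, ?_⟩
    rw [loc_inv, rep_smul]
    exact inv_mem hsl
  have hlist : ∀ g : H, ∃ L : List H, (∀ s ∈ L, s ∈ Sig) ∧ L.prod = g := by
    intro g
    have hg : g ∈ Subgroup.closure E := by rw [hEtop]; exact Subgroup.mem_top g
    induction hg using Subgroup.closure_induction with
    | mem c hc => exact ⟨[c], by simpa using hEsig c hc, by simp⟩
    | one => exact ⟨[], by simp, by simp⟩
    | mul a b ha hb iha ihb =>
      obtain ⟨L, hL, hLp⟩ := iha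
      obtain ⟨L', hL', hLp'⟩ := ihb
      refine ⟨L ++ L', ?_, by rw [List.prod_append, hLp, hLp']⟩
      intro s hs
      rcases List.mem_append.mp hs with h | h
      · exact hL s h
      · exact hL' s h
    | inv a ha iha =>
      obtain ⟨L, hL, hLp⟩ := iha
      refine ⟨(L.map (fun x => x⁻¹)).reverse, ?_, by rw [← List.prod_inv_reverse, hLp]⟩
      intro s hs
      rw [List.mem_reverse, List.mem_map] at hs
      obtain ⟨t, ht, rfl⟩ := hs
      exact hinv t (hL t ht)
  -- conclusion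
  have hmain : ∀ g ∈ MulAction.stabilizer H v, loc g v ∈ P (rep H v) := by
    intro g hg
    have hgv : g • v = v := MulAction.mem_stabilizer_iff.mp hg
    obtain ⟨L, hL, hLp⟩ := hlist g
    obtain ⟨h1, -⟩ := hchain L hL ⟨v, hvS, by rw [hLp, hgv]; exact hvS⟩
    rw [hLp] at h1
    obtain ⟨x, hx, hgx, hgl⟩ := h1
    exact hstar2 x hx v hvS g hgx (by rw [hgv]; exact hvS) hgl
  have heq : MulAction.stabilizer H v =
      (P (rep H v)).map (MulAut.conj (tau H v)).toMonoidHom := by
    apply le_antisymm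
    · intro g hg
      rw [Subgroup.mem_map]
      refine ⟨loc g v, hmain g hg, ?_⟩
      exact tau_conj g (MulAction.mem_stabilizer_iff.mp hg)
    · rintro g hg
      rw [Subgroup.mem_map] at hg
      obtain ⟨p, hp, rfl⟩ := hg
      have hp' := MulAction.mem_stabilizer_iff.mp (hPle _ hp)
      rw [MulAction.mem_stabilizer_iff]
      change (tau H v * p * (tau H v)⁻¹) • v = v
      have h1 : (tau H v)⁻¹ • v = rep H v := by
        rw [inv_smul_eq_iff, tau_smul]
      rw [mul_smul, mul_smul, h1, hp', tau_smul]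
  rw [heq]
  obtain ⟨F, hF⟩ := hPfg (rep H v)
  refine ⟨F.image (MulAut.conj (tau H v)).toMonoidHom, ?_⟩
  rw [Finset.coe_image, ← MonoidHom.map_closure, hF]

end Pool.Agent.Helper32.PC
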