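import Pool.Agent.Helper11.PC.Defs

/-! # Project PC: common tools for the packets TVF and TFP -/

namespace Pool.Agent.Helper32.PC

universe u v w

open Pool.Agent.Helper11.PC

section dist

variable {V : Type w} {T : SimpleGraph V}

lemma exists_last (hT : T.Connected) {x x' : V} (h : x ≠ x') :
    ∃ y, T.Adj y x' ∧ T.dist x y + T.dist y x' = T.dist x x' ∧ T.dist x y < T.dist x x' := by
  obtain ⟨p, hp⟩ := hT.exists_walk_length_eq_dist x' x
  cases p with
  | nil => exact absurd rfl h
  | cons hadj q =>
    rename_i y
    refine ⟨y, hadj.symm, ?_, ?_⟩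
    · have h1 : T.dist y x' = 1 := SimpleGraph.dist_eq_one_iff_adj.mpr hadj.symm
      have h2 : T.dist y x ≤ q.length := SimpleGraph.dist_le q
      have h3 : T.dist x x' ≤ T.dist x y + T.dist y x' := hT.dist_triangle
      rw [SimpleGraph.Walk.length_cons] at hp
      rw [SimpleGraph.dist_comm] at hp
      rw [SimpleGraph.dist_comm] at h2
      omega
    · have h2 : T.dist y x ≤ q.length := SimpleGraph.dist_le q
      rw [SimpleGraph.Walk.length_cons] at hp
      rw [SimpleGraph.dist_comm] at hp
      rw [SimpleGraph.dist_comm] at h2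
      omega

variable {H : Type u} [Group H] [MulAction H V]

lemma dist_smul_le (hT : T.Connected)
    (hact : ∀ (g : H) (v w : V), T.Adj v w → T.Adj (g • v) (g • w)) (g : H) (v w : V) :
    T.dist (g • v) (g • w) ≤ T.dist v w := by
  obtain ⟨p, hp⟩ := hT.exists_walk_length_eq_dist v w
  let f : T →g T := ⟨fun x => g • x, fun {a b} h => hact g a b h⟩
  rw [← hp, ← SimpleGraph.Walk.length_map f p]
  exact SimpleGraph.dist_le _

lemma dist_smul (hT : T.Connected)
    (hact : ∀ (g : H) (v w : V), T.Adj v w → T.Adj (g • v) (g • w)) (g : H) (v w : V) :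
    T.dist (g • v) (g • w) = T.dist v w := by
  apply le_antisymm (dist_smul_le hT hact g v w)
  have := dist_smul_le hT hact g⁻¹ (g • v) (g • w)
  rwa [inv_smul_smul, inv_smul_smul] at this

end dist

section orbit

variable {V : Type w} (H : Type u) [Group H] [MulAction H V]

/-- representative of the orbit -/
noncomputable def rep (x : V) : V := Quotient.out (Quotient.mk (MulAction.orbitRel H V) x)

lemma rep_smul (s : H) (x : V) : rep H (s • x) = rep H x := by
  unfold rep
  congr 1
  apply Quotient.sound
  exact ⟨s, rfl⟩

lemma exists_rep (x : V) : ∃ h : H, h • rep H x = x := by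
  have h : (MulAction.orbitRel H V) (Quotient.out (Quotient.mk (MulAction.orbitRel H V) x)) x :=
    Quotient.mk_out (s := MulAction.orbitRel H V) x
  obtain ⟨g, hg⟩ := (MulAction.orbitRel H V).symm h
  exact ⟨g, hg⟩

/-- an element moving the representative to the point -/
noncomputable def tau (x : V) : H := (exists_rep H x).choose

lemma tau_smul (x : V) : tau H x • rep H x = x := (exists_rep H x).choose_spec

variable {H}

/-- the local element -/
noncomputable def loc (s : H) (x : V) : H := (tau H (s • x))⁻¹ * s * tau H x

lemma loc_mul (s t : H) (x : V) : loc (s * t) x = loc s (t • x) * loc t x := by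
  unfold loc
  rw [mul_smul]
  group

lemma loc_one (x : V) : loc (1 : H) x = 1 := by
  unfold loc
  rw [one_smul]
  group

lemma loc_inv (s : H) (x : V) : loc s⁻¹ (s • x) = (loc s x)⁻¹ := by
  have h := loc_mul s⁻¹ s x
  rw [inv_mul_cancel, loc_one] at h
  exact (inv_eq_of_mul_eq_one_left h.symm).symm

lemma loc_mem (s : H) (x : V) : loc s x ∈ MulAction.stabilizer H (rep H x) := by
  rw [MulAction.mem_stabilizer_iff]
  unfold loc
  rw [mul_smul, mul_smul, tau_smul, inv_smul_eq_iff]
  have := tau_smul H (s • x)
  rw [rep_smul] at this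
  exact this.symm

lemma loc_stab {c : H} {x : V} (hc : c • x = x) : loc c x = (tau H x)⁻¹ * c * tau H x := by
  unfold loc
  rw [hc]

lemma tau_conj (g : H) {x : V} (hg : g • x = x) :
    tau H x * loc g x * (tau H x)⁻¹ = g := by
  rw [loc_stab hg]
  group

end orbit

section gens

variable {V : Type w} {T : SimpleGraph V} {H : Type u} [Group H] [MulAction H V]

/-- finite generating sets of the edge stabilizers -/
lemma exists_gens (hedge : ∀ v w : V, T.Adj v w →
      (MulAction.stabilizer H v ⊓ MulAction.stabilizer H w).FG) :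
    ∃ A : V → V → Set H, (∀ x y, (A x y).Finite) ∧ ∀ x y, T.Adj x y →
      Subgroup.closure (A x y) = MulAction.stabilizer H x ⊓ MulAction.stabilizer H y := by
  classical
  refine ⟨fun x y => if h : T.Adj x y then ((hedge x y h).choose : Set H) else ∅,
    fun x y => ?_, fun x y h => ?_⟩
  · dsimp only
    split_ifs with h
    · exact Finset.finite_toSet _
    · exact Set.finite_empty
  · dsimp only
    rw [dif_pos h]
    exact (hedge x y h).choose_spec

/-- chosen elements moving a pair to a pair -/
lemma exists_move : ∃ h0 : V → V → V → V → H, ∀ x x' y y', (∃ h : H, h • x = y ∧ h • x' = y') →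
    h0 x x' y y' • x = y ∧ h0 x x' y y' • x' = y' := by
  classical
  refine ⟨fun x x' y y' => if h : (∃ h : H, h • x = y ∧ h • x' = y') then h.choose else 1,
    fun x x' y y' h => ?_⟩
  dsimp only
  rw [dif_pos h]
  exact h.choose_spec

end gens

end Pool.Agent.Helper32.PC
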